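import Pool.Agent.K7.H35.V.Zfc
import Pool.Agent.K7.H35.V.Force

/-!
# Groups generated by Hurewicz sets in the Cohen model

Part (1) is a theorem of ZFC: a combinatorial principle, for an infinite index set `I`, implies
that every analytic subgroup of a Polish group which is generated by a Hurewicz set is σ-compact.
Part (2): adding `𝔠⁺` Cohen reals forces the principle, for an index set `I` of the ground model
of cardinality `𝔠`. A sentence of the forcing language is represented by the set of the
conditions forcing it (see `Pool.Agent.Helper669.Forcing`). In the forced principle the map `Ψ`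
may be any map between names, which covers all maps of the extension.
-/

set_option autoImplicit false

namespace Pool.Agent.Results.MP_88659e_gt.CohenModel

open Pool.Agent.K7.H35.V

/-- (1) Let `I` be an infinite set such that (a) for each map `Ψ` from sequences of subsets of `ℕ`
to sequences of subsets of `ℕ` there are sequences `D ξ`, `ξ ∈ I`, such that for each `b ⊆ ℕ`
there is `ξ` such that each term of `Ψ (D ξ)` included in `b` is included in a term of `D ξ`
included in `b`; (b) for each family, indexed by `I`, of dense sets of finite sequences there is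
an infinite sequence with an initial segment in each of them. Then, in each Polish group, each
analytic subgroup generated by a set with the Hurewicz property is σ-compact. (2) Some forcing
notion forces, below every condition, (a) and (b) for some infinite set `I`. -/
theorem result :
    (∀ I : Type, Infinite I →
      (∀ Ψ : (ℕ → Set ℕ) → ℕ → Set ℕ, ∃ D : I → ℕ → Set ℕ, ∀ b : Set ℕ, ∃ ξ : I,
        ∀ m, Ψ (D ξ) m ⊆ b → ∃ i, Ψ (D ξ) m ⊆ D ξ i ∧ D ξ i ⊆ b) →
      (∀ D : I → List ℕ → Prop, (∀ j s, ∃ t, s <+: t ∧ D j t) →
        ∃ x : ℕ → ℕ, ∀ j, ∃ t : List ℕ, (∀ i < t.length, x i = t.getD i 0) ∧ D j t) →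
      ∀ (G : Type) (_ : TopologicalSpace G) (_ : PolishSpace G) (_ : Group G)
        (_ : IsTopologicalGroup G) (X : Set G),
        (∀ U : ℕ → Set (Set G), (∀ n, (∀ u ∈ U n, IsOpen u) ∧ X ⊆ ⋃₀ U n) →
          ∃ F : ℕ → Finset (Set G), (∀ n, (↑(F n) : Set (Set G)) ⊆ U n) ∧
            ∀ x ∈ X, ∀ᶠ n in Filter.atTop, x ∈ ⋃₀ ((↑(F n) : Set (Set G)))) →
        MeasureTheory.AnalyticSet ((Subgroup.closure X : Subgroup G) : Set G) →
        IsSigmaCompact ((Subgroup.closure X : Subgroup G) : Set G)) ∧
    (∃ (Q : Type) (_ : Preorder Q) (I : Type), Nonempty Q ∧ Infinite I ∧ ∀ q : Q,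
      q ∈ Capture Q I ∧ q ∈ Pool.Agent.H458R4.Cohen.MeetsDense Q I) := by
  refine ⟨fun I hI hP hM G _ _ _ _ X hX hA => main_zfc hP hM G X hX hA, ?_⟩
  let ι : Type := (Order.succ Cardinal.continuum.{0}).out
  let I : Type := Cardinal.continuum.{0}.out
  have hι : Cardinal.mk ι = Order.succ Cardinal.continuum.{0} := Cardinal.mk_out _
  have hI : Cardinal.mk I = Cardinal.continuum.{0} := Cardinal.mk_out _
  have hlt : Cardinal.continuum.{0} < Order.succ Cardinal.continuum.{0} := Order.lt_succ _
  have hne : Nonempty ι := by
    rw [← Cardinal.mk_ne_zero_iff, hι]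
    exact (Cardinal.continuum_pos.trans hlt).ne'
  refine ⟨Pool.Agent.H458R4.Cohen.Fn ι, inferInstance, I, inferInstance, ?_, fun q => ⟨?_, ?_⟩⟩
  · rw [Cardinal.infinite_iff, hI]
    exact Cardinal.aleph0_le_continuum
  · exact capture hI q
  · exact Pool.Agent.H458R4.Cohen.meetsDense
      (by rw [hι]; exact Cardinal.aleph0_lt_continuum.trans hlt) (by rw [hI, hι]; exact hlt) q

end Pool.Agent.Results.MP_88659e_gt.CohenModel
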